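import Pool.Agent.HGF.Val

/-!
# Zero-cycles on the hypersurfaces `det (A(s) - B(s) diag (w_i ^ M_i)) = 0`: definitions

`k` is an algebraically closed field of characteristic zero. The entries of the rows `i` of the `m × m`
matrices `A`, `B` are forms of degree `e_i` on the projective line with the coordinate `s`, `∑ e_i = 2`
(the forms are given by polynomials). The hypersurface `X` lies in the product of the projective line with
the coordinate `s` and of `m` projective lines with the coordinates `w_i`. A point of the projective line
over a field `K` is an element of `Option K` (`none` is the point at infinity), with the homogeneous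
coordinates `HGF.fst`, `HGF.snd`; `HGF.form d P s` is the value of the form of degree `d` given by the
polynomial `P`, and `HGF.vlo v x` is the value of a point `x` over `K` at a place `v` of `K`.

For `M_i = 2` the quotient of `X` by the group of even changes of signs of the `w_i` is the double
covering of a quadric of rank `≤ 4` in the projective space of dimension `m + 1`, branched along `2 m`
hyperplanes.
-/

set_option autoImplicit false

noncomputable section

namespace Pool.Agent.ARS

open Polynomial Pool.Agent.ZCyc Pool.Agent.Dess Pool.Agent.GT Pool.Agent.TInc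
open Pool.Agent.HGF (fst snd form vlo)
open scoped Classical

variable {k : Type} [Field k] {m : ℕ}

/-- the data of a hypersurface `det (A(s) - B(s) diag (w_i ^ M_i)) = 0` -/
structure Fam (k : Type) [Field k] (m : ℕ) where
  /-- the matrix `A` -/
  A : Matrix (Fin m) (Fin m) k[X]
  /-- the matrix `B` -/
  B : Matrix (Fin m) (Fin m) k[X]
  /-- the degrees of the rows -/
  e : Fin m → ℕ
  /-- the exponents -/
  M : Fin m → ℕ

/-- the determinant of the matrix `B` with the column `i` replaced by the column `j` of `A`: the
numerator of the entry `(i, j)` of the matrix `B⁻¹ A` -/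
def Fam.num (X : Fam k m) (i j : Fin m) : k[X] := (X.B.updateCol i fun l => X.A l j).det

/-- The assumptions. The degrees of the rows are at most `e_i`, their sum is `2`. For some `i` all entries
of the row `i` and of the column `i` of the matrix `B⁻¹ A` are different from zero, and the entry
`(i, i)` is a rational function of degree `2` which is not a square. -/
structure Fam.Adm (X : Fam k m) : Prop where
  M0 : ∀ i, 0 < X.M i
  degA : ∀ i j, (X.A i j).natDegree ≤ X.e i
  degB : ∀ i j, (X.B i j).natDegree ≤ X.e i
  sum : ∑ i, X.e i = 2
  det : X.B.det ≠ 0
  row : ∃ i, (∀ j, X.num i j ≠ 0 ∧ X.num j i ≠ 0) ∧ IsCoprime (X.num i i) X.B.det ∧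
    (2 ≤ (X.num i i).natDegree ∨ 2 ≤ X.B.det.natDegree) ∧
    ¬ (IsSquare (X.num i i) ∧ IsSquare X.B.det)

/-- the matrix of the equation -/
def Fam.mt (X : Fam k m) {K : Type} [Field K] [Algebra k K] (s : Option K)
    (w : Fin m → Option K) : Matrix (Fin m) (Fin m) K :=
  Matrix.of fun i j => form (X.e i) (X.A i j) s * snd (w j) ^ X.M j -
    form (X.e i) (X.B i j) s * fst (w j) ^ X.M j

/-- the points of the hypersurface over an extension field -/
def On (X : Fam k m) {K : Type} [Field K] [Algebra k K] (s : Option K) (w : Fin m → Option K) :
    Prop := (X.mt s w).det = 0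

/-- `E` is a class function of a point of the hypersurface -/
def IsCF₁ [IsAlgClosed k] [CharZero k] (X : Fam k m) {W : Type} [AddCommGroup W]
    (E : Option k → (Fin m → Option k) → W) : Prop :=
  ∀ (K : Type) [Field K] [Algebra k K] (hK : IsCurve k K) (s : Option K) (w : Fin m → Option K)
    (f : K), f ≠ 0 → On X s w →
    ((TInc.dv hK f).sum fun v a => a • E (vlo v s) fun i => vlo v (w i)) = 0

/-- `E` is a class function of two points of the hypersurface -/
def IsCF₂ [IsAlgClosed k] [CharZero k] (X : Fam k m) {W : Type} [AddCommGroup W]
    (E : Option k → (Fin m → Option k) → Option k → (Fin m → Option k) → W) : Prop :=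
  ∀ (K : Type) [Field K] [Algebra k K] (hK : IsCurve k K) (s : Option K) (w : Fin m → Option K)
    (s' : Option K) (w' : Fin m → Option K) (f : K), f ≠ 0 → On X s w → On X s' w' →
    ((TInc.dv hK f).sum fun v a => a • E (vlo v s) (fun i => vlo v (w i)) (vlo v s')
      fun i => vlo v (w' i)) = 0

/-- the point of the projective line with the homogeneous coordinates `τ` -/
def pt {K : Type} [Field K] (τ : Fin 2 → K) : Option K := if τ 1 = 0 then none else some (τ 0 / τ 1)

/-- `E` is a class function of two points and an eigenfunction with the characters `χ` for the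
multiplication of the coordinates `w_i` by roots of unity, for both points -/
structure IsCls₂ [IsAlgClosed k] [CharZero k] {R W : Type} [Field R] [AddCommGroup W] [Module R W]
    (X : Fam k m) (χ : Fin m → k → R)
    (E : Option k → (Fin m → Option k) → Option k → (Fin m → Option k) → W) : Prop where
  cf : IsCF₂ X E
  left : ∀ s P s' Q i (u : k), u ^ X.M i = 1 → E s (HYG.rot i u P) s' Q = χ i u • E s P s' Q
  right : ∀ s P s' Q i (u : k), u ^ X.M i = 1 → E s P s' (HYG.rot i u Q) = χ i u • E s P s' Q

end Pool.Agent.ARS
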