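import Pool.Agent.ARS.Mat
import Pool.Agent.HYG.SwapAll

/-!
# The fibres of the projection to the projective line

For a vector `p` with `det B(p) ≠ 0` the fibre over the point `p` is the hypersurface
`det (A' - diag (w_i ^ M_i)) = 0` with `A' = B(p)⁻¹ A(p)`, and a class function of two points of `X` gives
class functions of two points of these hypersurfaces.
-/

set_option autoImplicit false

noncomputable section

namespace Pool.Agent.ARS

open Polynomial Matrix Pool.Agent.ZCyc Pool.Agent.Dess Pool.Agent.GT Pool.Agent.TInc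
open Pool.Agent.HGF (fst snd form vlo)
open scoped Classical

variable {k : Type} [Field k] {m : ℕ} {X : Fam k m}

section

variable {K : Type} [Field K] [Algebra k K]

/-- a vector is a multiple of the standard vector of its point -/
theorem vec_pt {τ : Fin 2 → K} (h : τ ≠ 0) :
    ∃ c : K, c ≠ 0 ∧ τ = c • ![fst (pt τ), snd (pt τ)] := by
  unfold pt
  by_cases h1 : τ 1 = 0
  · rw [if_pos h1]
    refine ⟨τ 0, fun h0 => h ?_, ?_⟩
    · ext i
      fin_cases i
      · exact h0
      · exact h1
    · ext i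
      fin_cases i
      · simp [HGF.fst_none]
      · simp [HGF.snd_none, h1]
  · rw [if_neg h1]
    refine ⟨τ 1, h1, ?_⟩
    ext i
    fin_cases i
    · simp [HGF.fst_some, mul_div_cancel₀ _ h1]
    · simp [HGF.snd_some]

/-- the point of a multiple -/
theorem pt_smul {c : K} (hc : c ≠ 0) (τ : Fin 2 → K) : pt (c • τ) = pt τ := by
  unfold pt
  simp only [Pi.smul_apply, smul_eq_mul, mul_eq_zero, hc, false_or]
  split_ifs
  · rfl
  · rw [mul_div_mul_left _ _ hc]

/-- the point with given standard coordinates -/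
theorem pt_std (s : Option K) : pt ![fst s, snd s] = s := by
  cases s with
  | none => simp [pt, HGF.snd_none]
  | some f => simp [pt, HGF.snd_some, HGF.fst_some]

theorem std_ne (s : Option K) : (![fst s, snd s] : Fin 2 → K) ≠ 0 := by
  intro h
  have h0 := congrFun h 0
  have h1 := congrFun h 1
  rcases HGF.fst_ne_or s with h2 | h2
  · exact h2 h0
  · exact h2 h1

/-- the determinant of the equation in terms of the vector `τ` -/
theorem on_iff {τ : Fin 2 → K} (h : τ ≠ 0) (w : Fin m → Option K) :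
    On X (pt τ) w ↔ (Matrix.of fun i j => X.Av τ i j * snd (w j) ^ X.M j -
      X.Bv τ i j * fst (w j) ^ X.M j).det = 0 := by
  obtain ⟨c, hc, hτ⟩ := vec_pt h
  have h1 : (Matrix.of fun i j => X.Av τ i j * snd (w j) ^ X.M j -
      X.Bv τ i j * fst (w j) ^ X.M j) =
      Matrix.of fun i j => c ^ X.e i * (X.mt (pt τ) w) i j := by
    ext i j
    have e : ∀ P : k[X], ev (X.e i) P τ = c ^ X.e i * form (X.e i) P (pt τ) := by
      intro P
      conv_lhs => rw [hτ]
      rw [ev_smul, form_eq_ev]
    simp only [Matrix.of_apply, Fam.Av, Fam.Bv, Fam.mt, e]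
    ring
  rw [h1, Matrix.det_mul_column, mul_eq_zero]
  unfold On
  constructor
  · exact Or.inr
  · rintro (h2 | h2)
    · exact absurd h2 (Finset.prod_ne_zero_iff.2 fun i _ => pow_ne_zero _ hc)
    · exact h2

theorem on_some {τ : Fin 2 → K} (h : τ ≠ 0) (w : Fin m → K) :
    On X (pt τ) (fun i => some (w i)) ↔
      (X.Av τ - X.Bv τ * diagonal fun i => w i ^ X.M i).det = 0 := by
  rw [on_iff h]
  have h1 : (Matrix.of fun i j => X.Av τ i j * snd (some (w j)) ^ X.M j -
      X.Bv τ i j * fst (some (w j)) ^ X.M j) =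
      X.Av τ - X.Bv τ * diagonal fun i => w i ^ X.M i := by
    ext i j
    rw [Matrix.of_apply, Matrix.sub_apply, Matrix.mul_diagonal, HGF.snd_some, HGF.fst_some,
      one_pow, mul_one]
  rw [h1]

/-- the normalised matrix of the fibre -/
def Fam.At (X : Fam k m) (τ : Fin 2 → K) : Matrix (Fin m) (Fin m) K := (X.Bv τ)⁻¹ * X.Av τ

theorem Bv_mul_At {τ : Fin 2 → K} (h : (X.Bv τ).det ≠ 0) : X.Bv τ * X.At τ = X.Av τ := by
  unfold Fam.At
  rw [Matrix.mul_nonsing_inv_cancel_left _ _ (isUnit_iff_ne_zero.2 h)]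

theorem on_fib {τ : Fin 2 → K} (h : τ ≠ 0) (hB : (X.Bv τ).det ≠ 0) (w : Fin m → K) :
    On X (pt τ) (fun i => some (w i)) ↔
      (X.At τ - diagonal fun i => w i ^ X.M i).det = 0 := by
  rw [on_some h, ← Bv_mul_At hB, ← Matrix.mul_sub, Matrix.det_mul, mul_eq_zero, or_iff_right hB]

theorem ev_map {K' : Type} [Field K'] [Algebra k K'] (φ : K →ₐ[k] K') (d : ℕ) (P : k[X])
    (τ : Fin 2 → K) : ev d P (fun i => φ (τ i)) = φ (ev d P τ) := by
  unfold ev
  rw [map_sum]
  refine Finset.sum_congr rfl fun j _ => ?_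
  rw [map_mul, map_mul, map_pow, map_pow, AlgHom.commutes]

theorem Av_const (p : Fin 2 → k) :
    X.Av (fun i => algebraMap k K (p i)) = (X.Av p).map (algebraMap k K) := by
  ext i j
  exact ev_map (Algebra.ofId k K) (X.e i) (X.A i j) p

theorem Bv_const (p : Fin 2 → k) :
    X.Bv (fun i => algebraMap k K (p i)) = (X.Bv p).map (algebraMap k K) := by
  ext i j
  exact ev_map (Algebra.ofId k K) (X.e i) (X.B i j) p

theorem pt_const (p : Fin 2 → k) :
    pt (fun i => algebraMap k K (p i)) = (pt p).map (algebraMap k K) := by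
  unfold pt
  simp only [map_eq_zero]
  split_ifs
  · rfl
  · rw [Option.map_some, map_div₀]

/-- points of a constant fibre -/
theorem on_const {p : Fin 2 → k} (h : p ≠ 0) (hB : (X.Bv p).det ≠ 0) (w : Fin m → K) :
    On X ((pt p).map (algebraMap k K)) (fun i => some (w i)) ↔
      (HYG.matK (X.At p) fun i => w i ^ X.M i).det = 0 := by
  have h1 : (fun i => algebraMap k K (p i)) ≠ 0 := by
    intro h2
    apply h
    funext i
    have h3 := congrFun h2 i
    exact (map_eq_zero (algebraMap k K)).1 h3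
  have h2 : X.Av (fun i => algebraMap k K (p i)) =
      X.Bv (fun i => algebraMap k K (p i)) * (X.At p).map (algebraMap k K) := by
    rw [Av_const, Bv_const, ← Bv_mul_At hB, Matrix.map_mul]
  have h3 : (X.Bv fun i => algebraMap k K (p i)).det ≠ 0 := by
    rw [Bv_const]
    intro h4
    apply hB
    have h5 := RingHom.map_det (algebraMap k K) (X.Bv p)
    rw [RingHom.mapMatrix_apply, h4] at h5
    exact (map_eq_zero (algebraMap k K)).1 h5
  rw [← pt_const, on_some h1, h2, ← Matrix.mul_sub, Matrix.det_mul, mul_eq_zero, or_iff_right h3]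
  rfl

end

section

variable [IsAlgClosed k] [CharZero k] {R W : Type} [Field R] [AddCommGroup W] [Module R W]
  {χ : Fin m → k → R} {E : Option k → (Fin m → Option k) → Option k → (Fin m → Option k) → W}

/-- class functions of two points of fibres -/
theorem IsCls₂.fib (hE : IsCls₂ X χ E) {p q : Fin 2 → k} (hp : p ≠ 0) (hq : q ≠ 0)
    (hBp : (X.Bv p).det ≠ 0) (hBq : (X.Bv q).det ≠ 0) :
    HYG.IsCls (X.At p) (X.At q) X.M χ fun P Q => E (pt p) P (pt q) Q := by
  refine ⟨?_, fun P Q i u hu => hE.left _ _ _ _ _ _ hu, fun P Q i u hu => hE.right _ _ _ _ _ _ hu⟩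
  intro K _ _ hK w w' f hf hw hw'
  have h1 := hE.cf K hK ((pt p).map (algebraMap k K)) (fun i => some (w i))
    ((pt q).map (algebraMap k K)) (fun i => some (w' i)) f hf ((on_const hp hBp w).2 hw)
    ((on_const hq hBq w').2 hw')
  simp only [HGF.vlo_const, HGF.vlo_some] at h1
  exact h1

/-- the exchange of the two points -/
theorem IsCls₂.sw (hE : IsCls₂ X χ E) : IsCls₂ X χ fun s P s' Q => E s' Q s P :=
  ⟨fun K _ _ hK s w s' w' f hf h h' => hE.cf K hK s' w' s w f hf h' h,
    fun s P s' Q i u hu => hE.right s' Q s P i u hu,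
    fun s P s' Q i u hu => hE.left s' Q s P i u hu⟩

/-- linear combinations -/
theorem IsCls₂.sub {E' : Option k → (Fin m → Option k) → Option k → (Fin m → Option k) → W}
    (hE : IsCls₂ X χ E) (hE' : IsCls₂ X χ E') (a : R) :
    IsCls₂ X χ fun s P s' Q => E s P s' Q - a • E' s P s' Q := by
  refine ⟨fun K _ _ hK s w s' w' f hf h h' => ?_, fun s P s' Q i u hu => ?_,
    fun s P s' Q i u hu => ?_⟩
  · have h1 := hE.cf K hK s w s' w' f hf h h'
    have h2 := hE'.cf K hK s w s' w' f hf h h'
    rw [Finsupp.sum] at h1 h2 ⊢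
    simp only [smul_sub, Finset.sum_sub_distrib]
    rw [h1]
    have h3 : ∀ v ∈ (dv hK f).support, (dv hK f) v • a • E' (vlo v s) (fun i => vlo v (w i))
        (vlo v s') (fun i => vlo v (w' i)) = a • ((dv hK f) v • E' (vlo v s)
          (fun i => vlo v (w i)) (vlo v s') fun i => vlo v (w' i)) := fun v _ => smul_comm _ _ _
    rw [Finset.sum_congr rfl h3, ← Finset.smul_sum, h2, smul_zero, sub_zero]
  · show E s (HYG.rot i u P) s' Q - a • E' s (HYG.rot i u P) s' Q = _
    rw [hE.left _ _ _ _ _ _ hu, hE'.left _ _ _ _ _ _ hu, smul_sub, smul_comm a]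
  · show E s P s' (HYG.rot i u Q) - a • E' s P s' (HYG.rot i u Q) = _
    rw [hE.right _ _ _ _ _ _ hu, hE'.right _ _ _ _ _ _ hu, smul_sub, smul_comm a]

end

end Pool.Agent.ARS
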