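import Pool.Agent.ARS.Defs

/-!
# Forms in two variables and biquadratic forms
-/

set_option autoImplicit false

noncomputable section

namespace Pool.Agent.ARS

open Polynomial
open Pool.Agent.HGF (fst snd form vlo)
open scoped Classical

/-- the value at `σ` of the form of degree `d` with the coefficients of `P` -/
def ev {k : Type} [Field k] (d : ℕ) (P : k[X]) {K : Type} [Field K] [Algebra k K] (σ : Fin 2 → K) : K :=
  ∑ j ∈ Finset.range (d + 1), algebraMap k K (P.coeff j) * (σ 0 ^ j * σ 1 ^ (d - j))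

section Ev

variable {k : Type} [Field k] {K : Type} [Field K] [Algebra k K]

theorem form_eq_ev (d : ℕ) (P : k[X]) (s : Option K) : form d P s = ev d P ![fst s, snd s] := rfl

theorem ev_smul (d : ℕ) (P : k[X]) (c : K) (σ : Fin 2 → K) : ev d P (c • σ) = c ^ d * ev d P σ := by
  unfold ev
  rw [Finset.mul_sum]
  refine Finset.sum_congr rfl fun j hj => ?_
  have hj' : j + (d - j) = d := by
    have := Finset.mem_range.1 hj
    omega
  rw [Pi.smul_apply, Pi.smul_apply, smul_eq_mul, smul_eq_mul, mul_pow, mul_pow]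
  nth_rewrite 3 [← hj']
  rw [pow_add]
  ring

theorem ev_one (d : ℕ) {P : k[X]} (h : P.natDegree ≤ d) (x : K) : ev d P ![x, 1] = aeval x P := by
  unfold ev
  rw [aeval_eq_sum_range' (Nat.lt_succ_of_le h)]
  refine Finset.sum_congr rfl fun j _ => ?_
  simp [Algebra.smul_def]

theorem ev_zero (d : ℕ) (P : k[X]) : ev d P ![(1 : K), 0] = algebraMap k K (P.coeff d) := by
  unfold ev
  rw [Finset.sum_eq_single d]
  · simp
  · intro j hj hjd
    have h1 : d - j ≠ 0 := by
      have := Finset.mem_range.1 hj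
      omega
    simp [h1]
  · intro h
    exact absurd (Finset.mem_range.2 (Nat.lt_succ_self d)) h

/-- a vector is a multiple of `(x, 1)` or of `(1, 0)` -/
theorem vec_cases (σ : Fin 2 → K) :
    (∃ c x : K, σ = c • ![x, 1]) ∨ ∃ c : K, σ = c • ![(1 : K), 0] := by
  by_cases h : σ 1 = 0
  · right
    refine ⟨σ 0, ?_⟩
    ext i
    fin_cases i
    · simp
    · simp [h]
  · left
    refine ⟨σ 1, σ 0 / σ 1, ?_⟩
    ext i
    fin_cases i
    · simp [mul_div_cancel₀ _ h]
    · simp

theorem ev_mul {d d' : ℕ} {P Q : k[X]} (h : P.natDegree ≤ d) (h' : Q.natDegree ≤ d')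
    (σ : Fin 2 → K) : ev (d + d') (P * Q) σ = ev d P σ * ev d' Q σ := by
  have hPQ : (P * Q).natDegree ≤ d + d' := natDegree_mul_le.trans (add_le_add h h')
  rcases vec_cases σ with ⟨c, x, rfl⟩ | ⟨c, rfl⟩
  · rw [ev_smul, ev_smul, ev_smul, ev_one _ hPQ, ev_one _ h, ev_one _ h', map_mul]
    ring
  · rw [ev_smul, ev_smul, ev_smul, ev_zero, ev_zero, ev_zero, coeff_mul_add_eq_of_natDegree_le h h',
      map_mul]
    ring

theorem ev_add (d : ℕ) (P Q : k[X]) (σ : Fin 2 → K) : ev d (P + Q) σ = ev d P σ + ev d Q σ := by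
  unfold ev
  rw [← Finset.sum_add_distrib]
  refine Finset.sum_congr rfl fun j _ => ?_
  rw [coeff_add, map_add]
  ring

end Ev

/-! ### Forms as functions -/

section Fm

variable {K : Type} [Field K]

/-- `f` is a form of degree `d` in two variables -/
def IsFm (d : ℕ) (f : K → K → K) : Prop :=
  ∃ P : K[X], P.natDegree ≤ d ∧ ∀ x y, f x y = ev d P ![x, y]

theorem IsFm.zero (d : ℕ) : IsFm d (fun _ _ : K => 0) :=
  ⟨0, by simp, fun x y => by simp [ev]⟩

theorem IsFm.add {d : ℕ} {f g : K → K → K} (hf : IsFm d f) (hg : IsFm d g) :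
    IsFm d fun x y => f x y + g x y := by
  obtain ⟨P, hP, h⟩ := hf
  obtain ⟨Q, hQ, h'⟩ := hg
  refine ⟨P + Q, (natDegree_add_le_of_degree_le hP hQ), fun x y => ?_⟩
  rw [ev_add, ← h, ← h']

theorem IsFm.mul {d d' : ℕ} {f g : K → K → K} (hf : IsFm d f) (hg : IsFm d' g) :
    IsFm (d + d') fun x y => f x y * g x y := by
  obtain ⟨P, hP, h⟩ := hf
  obtain ⟨Q, hQ, h'⟩ := hg
  refine ⟨P * Q, natDegree_mul_le.trans (add_le_add hP hQ), fun x y => ?_⟩
  rw [ev_mul hP hQ, ← h, ← h']

theorem IsFm.const (c : K) : IsFm 0 fun _ _ : K => c :=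
  ⟨C c, by simp, fun x y => by simp [ev]⟩

theorem IsFm.smul {d : ℕ} {f : K → K → K} (hf : IsFm d f) (c : K) :
    IsFm d fun x y => c * f x y := by
  have h := (IsFm.const c).mul hf
  rwa [zero_add] at h

theorem IsFm.neg {d : ℕ} {f : K → K → K} (hf : IsFm d f) : IsFm d fun x y => -f x y := by
  have h := hf.smul (-1)
  simpa using h

theorem IsFm.sub {d : ℕ} {f g : K → K → K} (hf : IsFm d f) (hg : IsFm d g) :
    IsFm d fun x y => f x y - g x y := by
  have h := hf.add hg.neg
  simpa [sub_eq_add_neg] using h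

/-- linear forms -/
theorem IsFm.lin (a b : K) : IsFm 1 fun x y : K => x * a + y * b := by
  refine ⟨C b + C a * X, ?_, fun x y => ?_⟩
  · refine (natDegree_add_le _ _).trans (max_le (by simp) ?_)
    exact (natDegree_C_mul_le _ _).trans natDegree_X_le
  · unfold ev
    rw [Finset.sum_range_succ, Finset.sum_range_one]
    simp
    ring

theorem IsFm.pow {d : ℕ} {f : K → K → K} (hf : IsFm d f) (n : ℕ) :
    IsFm (n * d) fun x y => f x y ^ n := by
  induction n with
  | zero => simpa using IsFm.const (1 : K)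
  | succ n ih =>
    have h := ih.mul hf
    rw [Nat.succ_mul]
    simpa [pow_succ] using h

theorem IsFm.sum {ι : Type} (T : Finset ι) {d : ℕ} {f : ι → K → K → K}
    (hf : ∀ i ∈ T, IsFm d (f i)) : IsFm d fun x y => ∑ i ∈ T, f i x y := by
  induction T using Finset.induction_on with
  | empty => simpa using IsFm.zero d
  | insert i T hi ih =>
    have h := (hf i (Finset.mem_insert_self _ _)).add
      (ih fun j hj => hf j (Finset.mem_insert_of_mem hj))
    simpa [Finset.sum_insert hi] using h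

theorem IsFm.prod {ι : Type} (T : Finset ι) {d : ι → ℕ} {f : ι → K → K → K}
    (hf : ∀ i ∈ T, IsFm (d i) (f i)) : IsFm (∑ i ∈ T, d i) fun x y => ∏ i ∈ T, f i x y := by
  induction T using Finset.induction_on with
  | empty => simpa using IsFm.const (1 : K)
  | insert i T hi ih =>
    have h := (hf i (Finset.mem_insert_self _ _)).mul
      (ih fun j hj => hf j (Finset.mem_insert_of_mem hj))
    rw [Finset.sum_insert hi]
    simpa [Finset.prod_insert hi] using h

/-- determinants of matrices whose rows consist of forms of the same degree -/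
theorem IsFm.det {m : ℕ} {d : Fin m → ℕ} {f : K → K → Matrix (Fin m) (Fin m) K}
    (hf : ∀ i j, IsFm (d i) fun x y => f x y i j) :
    IsFm (∑ i, d i) fun x y => (f x y).det := by
  simp only [Matrix.det_apply]
  refine IsFm.sum _ fun σ _ => ?_
  have h : IsFm (∑ i, d (σ i)) fun x y => ∏ i, f x y (σ i) i :=
    IsFm.prod _ fun i _ => hf (σ i) i
  rw [Equiv.sum_comp σ d] at h
  have h2 := h.smul ((Equiv.Perm.sign σ : ℤ) : K)
  simpa [Units.smul_def, zsmul_eq_mul] using h2

theorem IsFm.evl {k : Type} [Field k] [Algebra k K] (d : ℕ) (P : k[X]) (p q : Fin 2 → K) :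
    IsFm d fun x y : K => ev d P (x • p + y • q) := by
  unfold ev
  refine IsFm.sum _ fun j hj => ?_
  have hj' : j + (d - j) = d := by
    have := Finset.mem_range.1 hj
    omega
  have h := (((IsFm.lin (p 0) (q 0)).pow j).mul ((IsFm.lin (p 1) (q 1)).pow (d - j))).smul
    (algebraMap k K (P.coeff j))
  rw [mul_one, mul_one, hj'] at h
  exact h

/-- a form of degree two -/
theorem IsFm.two [CharZero K] {f : K → K → K} (hf : IsFm 2 f) (x y : K) :
    f x y = x ^ 2 * f 1 0 + x * y * ((f 1 1 - f 1 (-1)) / 2) + y ^ 2 * f 0 1 := by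
  obtain ⟨P, -, h⟩ := hf
  rw [h, h, h, h, h]
  unfold ev
  simp only [Finset.sum_range_succ, Finset.sum_range_zero]
  simp
  ring

end Fm

end Pool.Agent.ARS
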