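import Pool.Agent.ARS.Form

/-!
# The biquadratic form of two points

`Av τ`, `Bv τ` are the values of the matrices `A`, `B` at the vector `τ` of homogeneous coordinates of the
projective line. For `T`, `U` we put `D T U τ τ' = B(τ) T B(τ')ᵗ - A(τ) U A(τ')ᵗ` (`T`, `U` as diagonal matrices).
The determinant `F T U τ τ'` is a symmetric form of degree `(2, 2)` in `τ`, `τ'`, and it is an affine
function of each `U i`.

For the vectors `τ = p + t q`, `τ' = t p + l q` (two points which are exchanged by an involution of the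
projective line) the determinant is `t ^ 2 * κ` if `F p q = 0` and the line is tangent.
-/

set_option autoImplicit false

noncomputable section

namespace Pool.Agent.ARS

open Polynomial Matrix
open Pool.Agent.HGF (fst snd form vlo)
open scoped Classical

/-! ### Rank one perturbations -/

/-- the determinant is an affine function of the coefficient of a matrix of rank one -/
theorem det_sub_smul {n : ℕ} {R : Type} [CommRing R] (Z : Matrix (Fin n) (Fin n) R) (a b : Fin n → R)
    (u : R) : (Z - u • vecMulVec a b).det = Z.det + u * ((Z - vecMulVec a b).det - Z.det) := by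
  have key : ∀ u : R, (Z - u • vecMulVec a b).det = Z.det + u * ((fromBlocks Z
      (replicateCol Unit a) 0 1).updateRow (Sum.inr ()) (Sum.elim b fun _ => 0)).det := by
    intro u
    have h1 : Z - u • vecMulVec a b =
        Z - replicateCol Unit a * (u • replicateRow Unit b) := by
      rw [Matrix.mul_smul]
      congr 2
      ext i j
      simp [vecMulVec, Matrix.mul_apply]
    have h2 : fromBlocks Z (replicateCol Unit a) (u • replicateRow Unit b) (1 : Matrix Unit Unit R) =
        (fromBlocks Z (replicateCol Unit a) 0 1).updateRow (Sum.inr ())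
          ((fromBlocks Z (replicateCol Unit a) 0 (1 : Matrix Unit Unit R)) (Sum.inr ()) +
            u • Sum.elim b fun _ => 0) := by
      ext i j
      rcases i with i | i
      · rw [Matrix.updateRow_ne (by simp)]
        rcases j with j | j <;> simp [fromBlocks]
      · cases i
        rw [Matrix.updateRow_self]
        rcases j with j | j <;> simp [fromBlocks]
    rw [h1, ← Matrix.det_fromBlocks_one₂₂, h2, Matrix.det_updateRow_add, Matrix.updateRow_eq_self,
      Matrix.det_updateRow_smul, Matrix.det_fromBlocks_one₂₂, Matrix.mul_zero, sub_zero]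
  have h1 := key 1
  rw [one_smul, one_mul] at h1
  rw [key u, h1]
  ring

/-! ### The form -/

section

variable {k : Type} [Field k] {m : ℕ} (X : Fam k m) {K : Type} [Field K] [Algebra k K]

/-- the value of the matrix `A` -/
def Fam.Av (τ : Fin 2 → K) : Matrix (Fin m) (Fin m) K := fun i j => ev (X.e i) (X.A i j) τ

/-- the value of the matrix `B` -/
def Fam.Bv (τ : Fin 2 → K) : Matrix (Fin m) (Fin m) K := fun i j => ev (X.e i) (X.B i j) τ

/-- the matrix `B(τ) T B(τ')ᵗ - A(τ) U A(τ')ᵗ` -/
def Fam.D (T U : Fin m → K) (τ τ' : Fin 2 → K) : Matrix (Fin m) (Fin m) K :=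
  X.Bv τ * diagonal T * (X.Bv τ')ᵀ - X.Av τ * diagonal U * (X.Av τ')ᵀ

/-- its determinant -/
def Fam.F (T U : Fin m → K) (τ τ' : Fin 2 → K) : K := (X.D T U τ τ').det

theorem D_transpose (T U : Fin m → K) (τ τ' : Fin 2 → K) :
    (X.D T U τ τ')ᵀ = X.D T U τ' τ := by
  unfold Fam.D
  rw [transpose_sub, transpose_mul, transpose_mul, transpose_mul, transpose_mul,
    transpose_transpose, transpose_transpose, diagonal_transpose, diagonal_transpose,
    Matrix.mul_assoc, Matrix.mul_assoc]

theorem F_symm (T U : Fin m → K) (τ τ' : Fin 2 → K) : X.F T U τ τ' = X.F T U τ' τ := by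
  unfold Fam.F
  rw [← D_transpose, det_transpose]

theorem D_apply (T U : Fin m → K) (τ τ' : Fin 2 → K) (i j : Fin m) :
    X.D T U τ τ' i j = ∑ l, (X.Bv τ i l * T l * X.Bv τ' j l - X.Av τ i l * U l * X.Av τ' j l) := by
  unfold Fam.D
  rw [Matrix.sub_apply, Matrix.mul_apply, Matrix.mul_apply, ← Finset.sum_sub_distrib]
  refine Finset.sum_congr rfl fun l _ => ?_
  rw [Matrix.mul_diagonal, Matrix.mul_diagonal, transpose_apply, transpose_apply]

variable {X}

theorem isFm_F (hX : ∑ i, X.e i = 2) (T U : Fin m → K) (p q τ' : Fin 2 → K) :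
    IsFm 2 fun x y : K => X.F T U (x • p + y • q) τ' := by
  have h : IsFm (∑ i, X.e i) fun x y : K => (X.D T U (x • p + y • q) τ').det := by
    refine IsFm.det fun i j => ?_
    simp only [D_apply]
    refine IsFm.sum _ fun l _ => ?_
    have h1 := (IsFm.evl (K := K) (X.e i) (X.B i l) p q).smul (T l * X.Bv τ' j l)
    have h2 := (IsFm.evl (K := K) (X.e i) (X.A i l) p q).smul (U l * X.Av τ' j l)
    have h3 := h1.sub h2
    refine (congrArg (IsFm (X.e i)) ?_).mp h3
    funext x y
    unfold Fam.Bv Fam.Av
    ring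
  rw [hX] at h
  exact h

variable [CharZero K]

theorem F_left (hX : ∑ i, X.e i = 2) (T U : Fin m → K) (p q τ' : Fin 2 → K) (x y : K) :
    X.F T U (x • p + y • q) τ' = x ^ 2 * X.F T U p τ' +
      x * y * ((X.F T U (p + q) τ' - X.F T U (p - q) τ') / 2) + y ^ 2 * X.F T U q τ' := by
  have h := (isFm_F hX T U p q τ').two x y
  simp only [one_smul, zero_smul, add_zero, zero_add, neg_smul] at h
  rw [h, sub_eq_add_neg p q]

theorem F_right (hX : ∑ i, X.e i = 2) (T U : Fin m → K) (p q τ : Fin 2 → K) (x y : K) :
    X.F T U τ (x • p + y • q) = x ^ 2 * X.F T U τ p +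
      x * y * ((X.F T U τ (p + q) - X.F T U τ (p - q)) / 2) + y ^ 2 * X.F T U τ q := by
  rw [F_symm, F_left hX, F_symm X T U p, F_symm X T U (p + q), F_symm X T U (p - q),
    F_symm X T U q]

variable (X)

/-- the coefficients of the form in the basis `p`, `q` -/
def Fam.f01 (T U : Fin m → K) (p q : Fin 2 → K) : K :=
  (X.F T U p (p + q) - X.F T U p (p - q)) / 2

/-- the coefficients of the form in the basis `p`, `q` -/
def Fam.f12 (T U : Fin m → K) (p q : Fin 2 → K) : K :=
  (X.F T U (p + q) q - X.F T U (p - q) q) / 2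

/-- the coefficients of the form in the basis `p`, `q` -/
def Fam.f11 (T U : Fin m → K) (p q : Fin 2 → K) : K :=
  (X.F T U (p + q) (p + q) - X.F T U (p + q) (p - q) - X.F T U (p - q) (p + q) +
    X.F T U (p - q) (p - q)) / 4

/-- the constant `κ`, multiplied by `f12 ^ 2`, for `l = - f01 / f12` -/
def Fam.kap (T U : Fin m → K) (p q : Fin 2 → K) : K :=
  X.f12 T U p q ^ 2 * X.F T U p p - X.f01 T U p q * X.f12 T U p q * X.f11 T U p q +
    X.f01 T U p q ^ 2 * X.F T U q q

variable {X}

/-- the form on the pairs `p + t q`, `t p + l q` -/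
theorem F_line (hX : ∑ i, X.e i = 2) (T U : Fin m → K) (p q : Fin 2 → K) (t l : K) :
    X.F T U (p + t • q) (t • p + l • q) = l ^ 2 * X.F T U p q + t ^ 4 * X.F T U q p +
      t * (l + t ^ 2) * (X.f01 T U p q + l * X.f12 T U p q) +
      t ^ 2 * (X.F T U p p + l * X.f11 T U p q + l ^ 2 * X.F T U q q) := by
  have h := F_left hX T U p q (t • p + l • q) 1 t
  rw [one_smul] at h
  rw [h, F_right hX, F_right hX, F_right hX, F_right hX]
  unfold Fam.f01 Fam.f12 Fam.f11
  rw [F_symm X T U (p - q) p, F_symm X T U (p + q) p, F_symm X T U q (p + q),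
    F_symm X T U q (p - q)]
  ring

/-- the tangent line -/
theorem F_tangent (hX : ∑ i, X.e i = 2) {T U : Fin m → K} {p q : Fin 2 → K}
    (h0 : X.F T U p q = 0) {l : K} (hl : X.f01 T U p q + l * X.f12 T U p q = 0) (t : K) :
    X.F T U (p + t • q) (t • p + l • q) =
      t ^ 2 * (X.F T U p p + l * X.f11 T U p q + l ^ 2 * X.F T U q q) := by
  rw [F_line hX, hl, h0, F_symm, h0]
  ring

omit [CharZero K] in
/-- the dependence on `U i` -/
theorem F_affine (T U : Fin m → K) (i : Fin m) (u : K) (τ τ' : Fin 2 → K) :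
    X.F T (Function.update U i (U i + u)) τ τ' = X.F T U τ τ' +
      u * (X.F T (Function.update U i (U i + 1)) τ τ' - X.F T U τ τ') := by
  have key : ∀ u : K, X.D T (Function.update U i (U i + u)) τ τ' =
      X.D T U τ τ' - u • vecMulVec (fun l => X.Av τ l i) fun l => X.Av τ' l i := by
    intro u
    ext a b
    rw [Matrix.sub_apply, D_apply, D_apply, Matrix.smul_apply, vecMulVec_apply, smul_eq_mul,
      ← Finset.add_sum_erase _ _ (Finset.mem_univ i),
      ← Finset.add_sum_erase _ (fun l => X.Bv τ a l * T l * X.Bv τ' b l -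
        X.Av τ a l * U l * X.Av τ' b l) (Finset.mem_univ i), Function.update_self]
    have h1 : ∀ l ∈ Finset.univ.erase i, X.Bv τ a l * T l * X.Bv τ' b l -
        X.Av τ a l * Function.update U i (U i + u) l * X.Av τ' b l =
        X.Bv τ a l * T l * X.Bv τ' b l - X.Av τ a l * U l * X.Av τ' b l := by
      intro l hl
      rw [Function.update_of_ne (Finset.ne_of_mem_erase hl)]
    rw [Finset.sum_congr rfl h1]
    ring
  unfold Fam.F
  have h1 := key 1
  rw [one_smul] at h1
  rw [key u, h1, det_sub_smul]

end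

end Pool.Agent.ARS
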