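import Pool.Agent.HGF.Val
import Pool.Agent.GT.Mov

/-!
# The moving lemma and the comparison of two values of the parameter, for functions on places

The two theorems of `HGF/Mov.lean` for functions with values in a torsion-free group, without
reference to a class of varieties.
-/

set_option autoImplicit false
set_option linter.unusedSectionVars false

noncomputable section

namespace Pool.Agent.ARS

open Polynomial Pool.Agent.ZCyc Pool.Agent.Dess Pool.Agent.GT Pool.Agent.TInc
open Pool.Agent.VFP (Om tt)
open Pool.Agent.HGF (fst snd form vlo)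
open scoped Classical

variable {k : Type} [Field k] [IsAlgClosed k] [CharZero k] {W : Type} [AddCommGroup W]

theorem exists_fld (Γ : Finset (Om k)) : ∃ K : IntermediateField k (Om k), IsCurve k K ∧
    ↑Γ ⊆ (K : Set (Om k)) ∧ tt k ∈ K := by
  have hX : Hom (∅ : Set (MvPolynomial (Fin (0 + 1)) k)) := fun f hf => hf.elim
  obtain ⟨K, -, hK, hΓ, htt, -⟩ := exists_field hX Γ (J := Empty) (fun j => j.elim)
  exact ⟨K, hK, hΓ, htt⟩

omit [IsAlgClosed k] [CharZero k] in
theorem lift_opt {K : IntermediateField k (Om k)} (x : Option (Om k))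
    (h : ∀ f ∈ x, f ∈ K) : ∃ x' : Option K, x'.map K.val = x := by
  cases x with
  | none => exact ⟨none, rfl⟩
  | some f => exact ⟨some ⟨f, h f rfl⟩, rfl⟩

omit [IsAlgClosed k] [CharZero k] in
theorem mov_vanishes {K : IntermediateField k (Om k)} {V : Place k (Om k)}
    {c : Place k K} (h : V.ring.comap (K.val : K →+* Om k) = c.ring) (f : K) :
    V.Vanishes (f : Om k) ↔ c.Vanishes f := by
  rw [Place.vanishes_iff_or, Place.vanishes_iff_or, ← h, ValuationSubring.mem_comap]
  constructor
  · rintro (h1 | h1)
    · left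
      exact Subtype.ext h1
    · right
      exact h1
  · rintro (h1 | h1)
    · left
      rw [h1]
      rfl
    · right
      exact h1

/-- the moving lemma for functions on the set of places -/
theorem moving_core {K : IntermediateField k (Om k)} (hK : IsCurve k K)
    (L : Place k (Om k) → W) (L' : Place k K → W)
    (hlim : ∀ (V : Place k (Om k)) (c : Place k K),
      V.ring.comap (K.val : K →+* Om k) = c.ring → L V = L' c)
    (hrel : ∀ f : K, f ≠ 0 → ((TInc.dv hK f).sum fun v a => a • L' v) = 0)
    (Γ : Finset (Om k)) (hΓK : ↑Γ ⊆ (K : Set (Om k))) (hΓ : (0 : Om k) ∉ Γ)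
    (h : ∀ v : Place k (Om k), (∀ g ∈ Γ, g ∈ v.ring ∧ g⁻¹ ∈ v.ring) → L v = 0)
    (v : Place k (Om k)) : L v = 0 := by
  have : HasRes k K := hasRes_of_isCurve hK
  obtain ⟨c₀, hc₀⟩ := exists_below hK v K.val
  rw [hlim v c₀ hc₀]
  let T : Finset (Place k K) := Γ.attach.biUnion fun g =>
    (finite_ord hK (⟨g.1, hΓK g.2⟩ : K)).toFinset
  obtain ⟨f, hf, hf1, hf0⟩ := exists_prescribed hK c₀ T
  have hsum := hrel f hf
  have key : ∀ c, c ≠ c₀ → ord c f ≠ 0 → L' c = 0 := by
    intro c hc hcf
    have hcT : c ∉ T := fun h => hcf (hf0 c h hc)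
    obtain ⟨V, hV⟩ := exists_above hK c K.val
    rw [← hlim V c hV]
    apply h
    intro g hg
    have h1 : ord c (⟨g, hΓK hg⟩ : K) = 0 := by
      by_contra hne
      apply hcT
      rw [Finset.mem_biUnion]
      exact ⟨⟨g, hg⟩, Finset.mem_attach _ _, (Set.Finite.mem_toFinset _).2 hne⟩
    have h2 : (⟨g, hΓK hg⟩ : K) ≠ 0 := by
      intro h3
      apply hΓ
      have h4 := congrArg Subtype.val h3
      change g = 0 at h4
      rw [← h4]
      exact hg
    rw [ord_eq_zero_iff hK h2, ← hV, ValuationSubring.mem_comap, ValuationSubring.mem_comap] at h1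
    exact h1
  rw [Finsupp.sum, Finset.sum_eq_single c₀] at hsum
  · rw [TInc.dv_apply, hf1, one_smul] at hsum
    exact hsum
  · intro c hc hne
    rw [Finsupp.mem_support_iff, TInc.dv_apply] at hc
    rw [key c hne hc, smul_zero]
  · intro hc
    rw [Finsupp.notMem_support_iff, TInc.dv_apply, hf1] at hc
    exact absurd hc one_ne_zero

/-- comparison of two values of the parameter for functions on the set of places -/
theorem bridge_core (hW : ∀ (n : ℕ) (x : W), n ≠ 0 → n • x = 0 → x = 0)
    {K : IntermediateField k (Om k)} (hK : IsCurve k K) (htt : tt k ∈ K)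
    (L : Place k (Om k) → W) (L' : Place k K → W)
    (hlim : ∀ (V : Place k (Om k)) (c : Place k K),
      V.ring.comap (K.val : K →+* Om k) = c.ring → L V = L' c)
    (hrel : ∀ f : K, f ≠ 0 → ((TInc.dv hK f).sum fun v a => a • L' v) = 0) {c₀ c₁ : k}
    {C₀ C₁ : W} (h₀ : ∀ v : Place k (Om k), v.At (tt k) c₀ → L v = C₀)
    (h₁ : ∀ v : Place k (Om k), v.At (tt k) c₁ → L v = C₁) : C₀ = C₁ := by
  have : HasRes k K := hasRes_of_isCurve hK
  set τ : K := ⟨tt k, htt⟩ with hτ
  have hτt : Transcendental k τ := by
    intro h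
    apply Pool.Agent.VFP.tt_transc (k := k)
    have h1 := (isAlgebraic_algHom_iff K.val (K.val : K →+* Om k).injective).2 h
    exact h1
  -- the two functions
  let f : k → K := fun c => τ - algebraMap k K c
  have hft : ∀ c, Transcendental k (f c) := by
    intro c h
    apply hτt
    have h1 : τ = f c + algebraMap k K c := by
      change τ = τ - algebraMap k K c + algebraMap k K c
      ring
    rw [h1]
    exact h.add (isAlgebraic_algebraMap c)
  have hf0 : ∀ c, f c ≠ 0 := by
    intro c h
    apply hft c
    rw [h]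
    exact isAlgebraic_zero
  have hadj : ∀ c, IntermediateField.adjoin k {f c} = IntermediateField.adjoin k {τ} := by
    intro c
    apply le_antisymm
    · rw [IntermediateField.adjoin_simple_le_iff]
      exact sub_mem (IntermediateField.mem_adjoin_simple_self k τ)
        (IntermediateField.algebraMap_mem _ c)
    · rw [IntermediateField.adjoin_simple_le_iff]
      have h1 : τ = f c + algebraMap k K c := by
        change τ = τ - algebraMap k K c + algebraMap k K c
        ring
      have h2 : f c + algebraMap k K c ∈ IntermediateField.adjoin k {f c} :=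
        add_mem (IntermediateField.mem_adjoin_simple_self k (f c))
          (IntermediateField.algebraMap_mem _ c)
      rw [← h1] at h2
      exact h2
  set d : ℕ := Module.finrank (IntermediateField.adjoin k {τ}) K with hd
  have hdpos : 0 < d := by
    have := fin_adjoin hK hτt
    exact Module.finrank_pos
  let S : k → Finset (Place k K) := fun c =>
    (finite_ord hK (f c)).toFinset.filter fun v => v.Vanishes (f c)
  have hS : ∀ c v, v ∈ S c ↔ v.Vanishes (f c) := by
    intro c v
    rw [Finset.mem_filter, Set.Finite.mem_toFinset]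
    constructor
    · exact fun h => h.2
    · intro h
      have h1 := (vanishes_iff_ord hK (hf0 c)).1 h
      exact ⟨ne_of_gt h1, h⟩
  have hdeg : ∀ c, ∑ v ∈ S c, ord v (f c) = d := by
    intro c
    rw [deg_zeros' hK (hft c) (S c) (hS c), hadj c]
  -- the limits at the zeros
  have hlimS : ∀ (c : k) (C : W), (∀ v : Place k (Om k), v.At (tt k) c → L v = C) →
      ∀ v, v.Vanishes (f c) → L' v = C := by
    intro c C hC v hv
    obtain ⟨V, hV⟩ := exists_above hK v K.val
    rw [← hlim V v hV]
    apply hC
    have h1 := (mov_vanishes hV (f c)).2 hv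
    exact h1
  -- the orders at the poles agree
  have hpole : ∀ (a b : k) (v : Place k K), ord v (f a) < 0 → ord v (f b) = ord v (f a) := by
    intro a b v hv
    have h1 : f b = f a + algebraMap k K (a - b) := by
      change τ - algebraMap k K b = τ - algebraMap k K a + algebraMap k K (a - b)
      rw [map_sub]
      ring
    rw [h1]
    refine (ord_add_eq hK (hf0 a) fun _ => ?_).2
    rw [ord_const hK]
    exact hv
  let D : k → (Place k K →₀ ℤ) := fun c => TInc.dv hK (f c)
  let T : Finset (Place k K) := (D c₀).support ∪ (D c₁).support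
  have hsum : ∀ c, (D c).support ⊆ T → ∑ v ∈ T, ord v (f c) • L' v = 0 := by
    intro c hc
    have h1 := hrel (f c) (hf0 c)
    rw [Finsupp.sum_of_support_subset _ hc] at h1
    · exact h1
    · intro v _
      simp
  have hmax : ∀ c, (D c).support ⊆ T → ∑ v ∈ T, max (ord v (f c)) 0 = d := by
    intro c hc
    rw [← hdeg c]
    symm
    have hsub : S c ⊆ T := by
      intro v hv
      apply hc
      rw [Finsupp.mem_support_iff]
      have h1 := (vanishes_iff_ord hK (hf0 c)).1 ((hS c v).1 hv)
      exact ne_of_gt h1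
    rw [← Finset.sum_subset hsub]
    · refine Finset.sum_congr rfl fun v hv => ?_
      have h1 := (vanishes_iff_ord hK (hf0 c)).1 ((hS c v).1 hv)
      exact (max_eq_left h1.le).symm
    · intro v _ hv
      rw [hS, vanishes_iff_ord hK (hf0 c)] at hv
      exact max_eq_right (not_lt.1 hv)
  have hs0 := hsum c₀ Finset.subset_union_left
  have hs1 := hsum c₁ Finset.subset_union_right
  have hm0 := hmax c₀ Finset.subset_union_left
  have hm1 := hmax c₁ Finset.subset_union_right
  have hterm : ∀ v, ord v (f c₀) • L' v - ord v (f c₁) • L' v =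
      max (ord v (f c₀)) 0 • C₀ - max (ord v (f c₁)) 0 • C₁ := by
    intro v
    have e : ∀ (c : k) (C : W), (∀ v : Place k (Om k), v.At (tt k) c → L v = C) →
        max (ord v (f c)) 0 • C = max (ord v (f c)) 0 • L' v := by
      intro c C hC
      by_cases hv : v.Vanishes (f c)
      · rw [hlimS c C hC v hv]
      · rw [vanishes_iff_ord hK (hf0 c)] at hv
        rw [max_eq_right (not_lt.1 hv), zero_smul, zero_smul]
    rw [e c₀ C₀ h₀, e c₁ C₁ h₁, ← sub_smul, ← sub_smul]
    congr 1
    have h1 := hpole c₀ c₁ v
    have h2 := hpole c₁ c₀ v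
    rcases lt_or_ge (ord v (f c₀)) 0 with h | h
    · rw [h1 h]
      simp
    · rcases lt_or_ge (ord v (f c₁)) 0 with h' | h'
      · rw [h2 h'] at h
        omega
      · rw [max_eq_left h, max_eq_left h']
  have hfin : (d : ℤ) • C₀ - (d : ℤ) • C₁ = 0 := by
    have h1 : ∑ v ∈ T, (ord v (f c₀) • L' v - ord v (f c₁) • L' v) = 0 := by
      rw [Finset.sum_sub_distrib, hs0, hs1, sub_zero]
    rw [Finset.sum_congr rfl fun v _ => hterm v, Finset.sum_sub_distrib, ← Finset.sum_smul,
      ← Finset.sum_smul, hm0, hm1] at h1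
    exact h1
  rw [← smul_sub, natCast_zsmul] at hfin
  exact sub_eq_zero.1 (hW d _ hdpos.ne' hfin)

end Pool.Agent.ARS
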