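import Pool.Agent.ARS.Fib
import Pool.Agent.ARS.MovG
import Pool.Agent.HYG.CVal

/-!
# Points of the hypersurface over `Om k`, and the equation for one coordinate
-/

set_option autoImplicit false

noncomputable section

namespace Pool.Agent.ARS

open Polynomial Matrix Pool.Agent.ZCyc Pool.Agent.Dess Pool.Agent.GT Pool.Agent.TInc
open Pool.Agent.VFP (Om tt)
open Pool.Agent.HGF (fst snd form vlo)
open scoped Classical

variable {k : Type} [Field k] {m : ℕ} {X : Fam k m}

section

variable {K : Type} [Field K] [Algebra k K]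

/-! ### Maps of fields, values, rotations -/

theorem mt_map {K' : Type} [Field K'] [Algebra k K'] (φ : K →ₐ[k] K') (s : Option K)
    (w : Fin m → Option K) : X.mt (s.map φ) (fun i => (w i).map φ) = (X.mt s w).map φ := by
  ext i j
  simp only [Fam.mt, Matrix.of_apply, Matrix.map_apply, HGF.form_map, HGF.fst_map, HGF.snd_map,
    map_sub, map_mul, map_pow]

theorem on_map {K' : Type} [Field K'] [Algebra k K'] (φ : K →ₐ[k] K') {s : Option K}
    {w : Fin m → Option K} : On X (s.map φ) (fun i => (w i).map φ) ↔ On X s w := by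
  unfold On
  rw [mt_map]
  have h : φ (X.mt s w).det = ((X.mt s w).map φ).det := AlgHom.map_det φ (X.mt s w)
  rw [← h, map_eq_zero_iff φ (φ : K →+* K').injective]

/-- constant points -/
theorem on_cst {s : Option k} {w : Fin m → Option k} :
    On X (s.map (algebraMap k K)) (fun i => (w i).map (algebraMap k K)) ↔ On X s w :=
  on_map (Algebra.ofId k K)

theorem on_rot {s : Option k} {w : Fin m → Option k} (h : On X s w) {i : Fin m} {u : k}
    (hu : u ^ X.M i = 1) : On X s (HYG.rot i u w) := by
  have h1 : X.mt s (HYG.rot i u w) = X.mt s w := by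
    ext a j
    simp only [Fam.mt, Matrix.of_apply]
    by_cases hj : j = i
    · subst hj
      have h2 : HYG.rot j u w j = (w j).map fun z => u * z := by
        unfold HYG.rot
        rw [Function.update_self]
      rw [h2]
      cases w j with
      | none => rfl
      | some z =>
        rw [Option.map_some, HGF.snd_some, HGF.snd_some, HGF.fst_some, HGF.fst_some, mul_pow, hu,
          one_mul]
    · have h2 : HYG.rot i u w j = w j := by
        unfold HYG.rot
        rw [Function.update_of_ne hj]
      rw [h2]
  unfold On at h ⊢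
  rw [h1, h]

/-- values of determinants -/
theorem det_val {v : Place k K} {N : Matrix (Fin m) (Fin m) K} {N' : Matrix (Fin m) (Fin m) k}
    (h : ∀ i j, v.At (N i j) (N' i j)) : v.At N.det N'.det := by
  rw [Matrix.det_apply, Matrix.det_apply]
  refine Place.At.sum fun σ _ => ?_
  have h1 : v.At (∏ i, N (σ i) i) (∏ i, N' (σ i) i) := Place.At.prod fun i _ => h _ _
  rcases Int.units_eq_one_or (Equiv.Perm.sign σ) with h2 | h2
  · rw [h2, one_smul, one_smul]
    exact h1
  · rw [h2, Units.neg_smul, one_smul, Units.neg_smul, one_smul]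
    exact h1.neg

/-- the values of a point of the hypersurface lie on it -/
theorem on_vlo [HasRes k K] (v : Place k K) {s : Option K} {w : Fin m → Option K}
    (h : On X s w) : On X (vlo v s) fun i => vlo v (w i) := by
  obtain ⟨l, hl, h1, h2⟩ := HGF.exists_mul v s
  choose t ht h3 h4 using fun i => HGF.exists_mul v (w i)
  unfold On at h ⊢
  have hN : v.At (Matrix.of fun i j => l ^ X.e i * (Matrix.of fun i j => t j ^ X.M j *
      X.mt s w i j) i j).det (X.mt (vlo v s) fun i => vlo v (w i)).det := by
    refine det_val fun i j => ?_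
    have h5 := ((HGF.form_vlo (d := X.e i) (X.A i j) h1 h2).mul ((h4 j).pow (X.M j))).sub
      ((HGF.form_vlo (d := X.e i) (X.B i j) h1 h2).mul ((h3 j).pow (X.M j)))
    have e : (Matrix.of fun i j => l ^ X.e i * (Matrix.of fun i j => t j ^ X.M j *
        X.mt s w i j) i j) i j = l ^ X.e i * form (X.e i) (X.A i j) s *
          (t j * snd (w j)) ^ X.M j - l ^ X.e i * form (X.e i) (X.B i j) s *
          (t j * fst (w j)) ^ X.M j := by
      simp only [Fam.mt, Matrix.of_apply, mul_pow]
      ring
    rw [e]
    exact h5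
  rw [Matrix.det_mul_column, Matrix.det_mul_row, h, mul_zero, mul_zero] at hN
  exact hN.unique (Place.at_zero_iff.2 v.vanishes_zero)

/-! ### The equation for one coordinate -/

/-- the coefficient of `snd (w_i) ^ M_i` -/
def Fam.al (X : Fam k m) (i : Fin m) (s : Option K) (w : Fin m → Option K) : K :=
  ((X.mt s w).updateCol i fun l => form (X.e l) (X.A l i) s).det

/-- the coefficient of `fst (w_i) ^ M_i` -/
def Fam.be (X : Fam k m) (i : Fin m) (s : Option K) (w : Fin m → Option K) : K :=
  ((X.mt s w).updateCol i fun l => form (X.e l) (X.B l i) s).det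

theorem on_upd (i : Fin m) (s : Option K) (w : Fin m → Option K) (y : Option K) :
    On X s (Function.update w i y) ↔
      X.al i s w * snd y ^ X.M i = X.be i s w * fst y ^ X.M i := by
  have h1 : X.mt s (Function.update w i y) = (X.mt s w).updateCol i
      (snd y ^ X.M i • (fun l => form (X.e l) (X.A l i) s) +
        (-(fst y ^ X.M i)) • fun l => form (X.e l) (X.B l i) s) := by
    ext a j
    by_cases hj : j = i
    · subst hj
      rw [Matrix.updateCol_self]
      simp only [Fam.mt, Matrix.of_apply, Function.update_self, Pi.add_apply, Pi.smul_apply,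
        smul_eq_mul]
      ring
    · rw [Matrix.updateCol_ne hj]
      simp only [Fam.mt, Matrix.of_apply, Function.update_of_ne hj]
  unfold On Fam.al Fam.be
  rw [h1, Matrix.det_updateCol_add, Matrix.det_updateCol_smul, Matrix.det_updateCol_smul]
  constructor
  · intro h
    linear_combination h
  · intro h
    linear_combination h

theorem al_map {K' : Type} [Field K'] [Algebra k K'] (φ : K →ₐ[k] K') (i : Fin m) (s : Option K)
    (w : Fin m → Option K) : X.al i (s.map φ) (fun i => (w i).map φ) = φ (X.al i s w) := by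
  unfold Fam.al
  have h : φ ((X.mt s w).updateCol i fun l => form (X.e l) (X.A l i) s).det =
    (((X.mt s w).updateCol i fun l => form (X.e l) (X.A l i) s).map φ).det := AlgHom.map_det φ _
  rw [h, mt_map]
  congr 1
  ext a j
  by_cases hj : j = i
  · subst hj
    rw [Matrix.updateCol_self, Matrix.map_apply, Matrix.updateCol_self, HGF.form_map]
  · rw [Matrix.updateCol_ne hj, Matrix.map_apply, Matrix.map_apply, Matrix.updateCol_ne hj]

theorem be_map {K' : Type} [Field K'] [Algebra k K'] (φ : K →ₐ[k] K') (i : Fin m) (s : Option K)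
    (w : Fin m → Option K) : X.be i (s.map φ) (fun i => (w i).map φ) = φ (X.be i s w) := by
  unfold Fam.be
  have h : φ ((X.mt s w).updateCol i fun l => form (X.e l) (X.B l i) s).det =
    (((X.mt s w).updateCol i fun l => form (X.e l) (X.B l i) s).map φ).det := AlgHom.map_det φ _
  rw [h, mt_map]
  congr 1
  ext a j
  by_cases hj : j = i
  · subst hj
    rw [Matrix.updateCol_self, Matrix.map_apply, Matrix.updateCol_self, HGF.form_map]
  · rw [Matrix.updateCol_ne hj, Matrix.map_apply, Matrix.map_apply, Matrix.updateCol_ne hj]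

/-- over an algebraically closed field the coordinate `i` can be chosen such that the point lies on
the hypersurface -/
theorem exists_upd [IsAlgClosed K] {i : Fin m} (hM : 0 < X.M i) (s : Option K)
    (w : Fin m → Option K) : ∃ y, On X s (Function.update w i y) := by
  by_cases hb : X.be i s w = 0
  · refine ⟨none, (on_upd i s w none).2 ?_⟩
    rw [HGF.snd_none, zero_pow hM.ne', hb, mul_zero, zero_mul]
  · obtain ⟨r, hr⟩ := IsAlgClosed.exists_pow_nat_eq (X.al i s w / X.be i s w) hM
    refine ⟨some r, (on_upd i s w _).2 ?_⟩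
    rw [HGF.snd_some, HGF.fst_some, hr, one_pow, mul_one, mul_div_cancel₀ _ hb]

/-- if the equation for the coordinate `i` is not zero then the coordinate is unique up to a root
of unity -/
theorem upd_unique {i : Fin m} (hM : 0 < X.M i) {s : Option K} {w : Fin m → Option K}
    (h : On X s w) {y : Option K} (h' : On X s (Function.update w i y))
    (hab : X.al i s w ≠ 0 ∨ X.be i s w ≠ 0) :
    ∃ u : K, u ^ X.M i = 1 ∧ w i = y.map fun z => u * z := by
  have e1 : X.al i s w * snd (w i) ^ X.M i = X.be i s w * fst (w i) ^ X.M i := by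
    rw [← on_upd, Function.update_eq_self]
    exact h
  have e2 := (on_upd i s w y).1 h'
  by_cases hb : X.be i s w = 0
  · have ha : X.al i s w ≠ 0 := by
      rcases hab with h1 | h1
      · exact h1
      · exact absurd hb h1
    have hn : ∀ x : Option K, X.al i s w * snd x ^ X.M i = X.be i s w * fst x ^ X.M i →
        x = none := by
      intro x hx
      rw [hb, zero_mul] at hx
      cases x with
      | none => rfl
      | some z =>
        rw [HGF.snd_some, one_pow, mul_one] at hx
        exact absurd hx ha
    refine ⟨1, one_pow _, ?_⟩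
    rw [hn _ e1, hn _ e2]
    rfl
  · have hsm : ∀ x : Option K, X.al i s w * snd x ^ X.M i = X.be i s w * fst x ^ X.M i →
        ∃ z, x = some z ∧ X.al i s w = X.be i s w * z ^ X.M i := by
      intro x hx
      cases x with
      | none =>
        rw [HGF.snd_none, HGF.fst_none, zero_pow hM.ne', mul_zero, one_pow, mul_one] at hx
        exact absurd hx.symm hb
      | some z =>
        refine ⟨z, rfl, ?_⟩
        rwa [HGF.snd_some, HGF.fst_some, one_pow, mul_one] at hx
    obtain ⟨z, hz, h1⟩ := hsm _ e1
    obtain ⟨z', hz', h2⟩ := hsm _ e2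
    have h3 : z ^ X.M i = z' ^ X.M i := mul_left_cancel₀ hb (h1.symm.trans h2)
    by_cases hz0 : z' = 0
    · have hz1 : z = 0 := by
        rw [hz0, zero_pow hM.ne'] at h3
        exact eq_zero_of_pow_eq_zero h3
      refine ⟨1, one_pow _, ?_⟩
      rw [hz, hz', hz0, hz1, Option.map_some, mul_zero]
    · refine ⟨z / z', ?_, ?_⟩
      · rw [div_pow, h3, div_self (pow_ne_zero _ hz0)]
      · rw [hz, hz', Option.map_some, div_mul_cancel₀ _ hz0]

end

/-! ### Class functions of one point -/

variable [IsAlgClosed k] [CharZero k] {R W : Type} [Field R] [AddCommGroup W]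
  [Module R W] {χ : Fin m → k → R} {E : Option k → (Fin m → Option k) → W}

/-- `E` is a class function of one point and an eigenfunction with the characters `χ` -/
structure IsCls₁ (X : Fam k m) (χ : Fin m → k → R) (E : Option k → (Fin m → Option k) → W) :
    Prop where
  cf : IsCF₁ X E
  rot : ∀ s P i (u : k), u ^ X.M i = 1 → E s (HYG.rot i u P) = χ i u • E s P

/-- the second point is fixed -/
theorem IsCls₂.left₁ {E : Option k → (Fin m → Option k) → Option k → (Fin m → Option k) → W}
    (hE : IsCls₂ X χ E) {s' : Option k} {Q : Fin m → Option k} (hQ : On X s' Q) :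
    IsCls₁ X χ fun s P => E s P s' Q := by
  refine ⟨fun K _ _ hK s w f hf hw => ?_, fun s P i u hu => hE.left s P s' Q i u hu⟩
  have h1 := hE.cf K hK s w (s'.map (algebraMap k K)) (fun i => (Q i).map (algebraMap k K)) f hf
    hw (on_cst.2 hQ)
  simp only [HGF.vlo_const] at h1
  exact h1

/-- the first point is fixed -/
theorem IsCls₂.right₁ {E : Option k → (Fin m → Option k) → Option k → (Fin m → Option k) → W}
    (hE : IsCls₂ X χ E) {s : Option k} {P : Fin m → Option k} (hP : On X s P) :
    IsCls₁ X χ fun s' Q => E s P s' Q :=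
  hE.sw.left₁ hP

omit [Field R] [Module R W] in
/-- the field of definition -/
theorem exists_def {s : Option (Om k)} {w : Fin m → Option (Om k)} (h : On X s w)
    (Γ : Finset (Om k)) :
    ∃ (K : IntermediateField k (Om k)) (s' : Option K) (w' : Fin m → Option K),
      IsCurve k K ∧ ↑Γ ⊆ (K : Set (Om k)) ∧ tt k ∈ K ∧ On X s' w' ∧ s'.map K.val = s ∧
      ∀ i, (w' i).map K.val = w i := by
  let Γ' : Finset (Om k) := Γ ∪ s.toFinset ∪ Finset.univ.biUnion fun i => (w i).toFinset
  obtain ⟨K, hK, hΓ, htt⟩ := exists_fld Γ'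
  have h1 : ∃ x' : Option K, x'.map K.val = s := by
    refine lift_opt _ fun f hf => hΓ ?_
    simp only [Γ', Finset.coe_union, Set.mem_union, Finset.mem_coe, Option.mem_toFinset]
    exact Or.inl (Or.inr hf)
  have h2 : ∀ i, ∃ x' : Option K, x'.map K.val = w i := by
    intro i
    refine lift_opt _ fun f hf => hΓ ?_
    simp only [Γ', Finset.coe_union, Set.mem_union, Finset.mem_coe, Finset.mem_biUnion,
      Finset.mem_univ, true_and, Option.mem_toFinset]
    exact Or.inr ⟨i, hf⟩
  obtain ⟨s', hs'⟩ := h1
  choose w' hw' using h2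
  refine ⟨K, s', w', hK, ?_, htt, ?_, hs', hw'⟩
  · intro g hg
    apply hΓ
    simp only [Γ', Finset.coe_union, Set.mem_union]
    exact Or.inl (Or.inl hg)
  · rw [← on_map (X := X) K.val, hs']
    have h3 : (fun i => (w' i).map K.val) = w := funext hw'
    rw [h3]
    exact h

omit [Field R] [Module R W] in
theorem val_below {K : IntermediateField k (Om k)} {s : Option (Om k)}
    {w : Fin m → Option (Om k)} {s' : Option K} {w' : Fin m → Option K}
    (hs : s'.map K.val = s) (hw : ∀ i, (w' i).map K.val = w i) {V : Place k (Om k)}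
    {c : Place k K} (hV : V.ring.comap (K.val : K →+* Om k) = c.ring) :
    E (vlo V s) (fun i => vlo V (w i)) = E (vlo c s') fun i => vlo c (w' i) := by
  have h1 : vlo V s = vlo c s' := by rw [← hs, HGF.vlo_alg hV]
  have h2 : (fun i => vlo V (w i)) = fun i => vlo c (w' i) := by
    funext i
    rw [← hw, HGF.vlo_alg hV]
  rw [h1, h2]

omit [Field R] [Module R W] in
/-- the moving lemma -/
theorem moving₁ (hE : IsCF₁ X E) {s : Option (Om k)} {w : Fin m → Option (Om k)}
    (hw : On X s w) (Γ : Finset (Om k)) (hΓ : (0 : Om k) ∉ Γ)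
    (h : ∀ v : Place k (Om k), (∀ g ∈ Γ, g ∈ v.ring ∧ g⁻¹ ∈ v.ring) →
      E (vlo v s) (fun i => vlo v (w i)) = 0) (v : Place k (Om k)) :
    E (vlo v s) (fun i => vlo v (w i)) = 0 := by
  obtain ⟨K, s', w', hK, hΓK, htt, hon, hs', hw'⟩ := exists_def hw Γ
  exact moving_core hK (fun v => E (vlo v s) fun i => vlo v (w i))
    (fun v => E (vlo v s') fun i => vlo v (w' i)) (fun V c hV => val_below hs' hw' hV)
    (fun f hf => hE K hK s' w' f hf hon) Γ hΓK hΓ h v

/-- comparison of two values of the parameter -/
theorem bridge₁ [CharZero R] (hE : IsCls₁ X χ E) {s : Option (Om k)} {w : Fin m → Option (Om k)}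
    (hw : On X s w) {c₀ c₁ : k} {C₀ C₁ : W}
    (h₀ : ∀ v : Place k (Om k), v.At (tt k) c₀ → E (vlo v s) (fun i => vlo v (w i)) = C₀)
    (h₁ : ∀ v : Place k (Om k), v.At (tt k) c₁ → E (vlo v s) (fun i => vlo v (w i)) = C₁) :
    C₀ = C₁ := by
  obtain ⟨K, s', w', hK, -, htt, hon, hs', hw'⟩ := exists_def hw ∅
  have hW : ∀ (n : ℕ) (x : W), n ≠ 0 → n • x = 0 → x = 0 := by
    intro n x hn hx
    rw [← Nat.cast_smul_eq_nsmul R] at hx
    exact (smul_eq_zero.1 hx).resolve_left (Nat.cast_ne_zero.2 hn)
  exact bridge_core hW hK htt (fun v => E (vlo v s) fun i => vlo v (w i))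
    (fun v => E (vlo v s') fun i => vlo v (w' i)) (fun V c hV => val_below hs' hw' hV)
    (fun f hf => hE.cf K hK s' w' f hf hon) h₀ h₁

end Pool.Agent.ARS
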